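import Mathlib
import Pool.Agent.Q264.KS.Stm

/-!
# Project KS (helper264), JOB CLO
-/

set_option autoImplicit false

namespace Pool.Agent.Q121.KS

open Pool.Agent.Q264.KS
open Module Filter Topology

universe u

theorem func_le {X : Type u} [NormedAddCommGroup X] [NormedSpace ℝ X] (w : X) (hw : ‖w‖ = 1)
    (g : X →ₗ[ℝ] ℝ) (h : ∀ z, ‖z - (2 * g z) • w‖ = ‖z‖) (z : X) : |g z| ≤ ‖z‖ := by
  have h1 : (2 * g z) • w = z - (z - (2 * g z) • w) := by abel
  have h2 : ‖(2 * g z) • w‖ ≤ ‖z‖ + ‖z‖ := by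
    rw [h1]
    refine (norm_sub_le _ _).trans ?_
    rw [h z]
  rw [norm_smul, hw, mul_one, Real.norm_eq_abs, abs_mul, abs_two] at h2
  linarith

theorem t_CLO : S_CLO.{u} := by
  intro X _ _ _ hd v hv
  have hex : ∀ n : ℕ, ∃ w : X, ‖w‖ = 1 ∧ ‖w - v‖ < 1 / ((n : ℝ) + 1) ∧ Refl w := fun n =>
    hd v hv _ (by positivity)
  choose w hw1 hw2 hw3 using hex
  choose g hg1 hg2 using hw3
  let G : ℕ → (X →L[ℝ] ℝ) := fun n => LinearMap.toContinuousLinearMap (g n)
  have hG : ∀ n z, G n z = g n z := fun n z => rfl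
  have hle : ∀ n z, |G n z| ≤ ‖z‖ := fun n z => func_le (w n) (hw1 n) (g n) (hg2 n) z
  haveI : ProperSpace (X →L[ℝ] ℝ) := FiniteDimensional.proper ℝ (X →L[ℝ] ℝ)
  have hmem : ∀ n, G n ∈ Metric.closedBall (0 : X →L[ℝ] ℝ) 1 := by
    intro n
    rw [mem_closedBall_zero_iff]
    refine ContinuousLinearMap.opNorm_le_bound _ zero_le_one fun z => ?_
    rw [one_mul, Real.norm_eq_abs]
    exact hle n z
  obtain ⟨L, -, φ, hφ, hlim⟩ := (isCompact_closedBall (0 : X →L[ℝ] ℝ) 1).tendsto_subseq hmem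
  have hev : ∀ z : X, Tendsto (fun n => G (φ n) z) atTop (𝓝 (L z)) := by
    intro z
    have hc : Continuous (fun T : X →L[ℝ] ℝ => T z) := (ContinuousLinearMap.apply ℝ ℝ z).continuous
    exact (hc.tendsto L).comp hlim
  have hw0 : Tendsto (fun n => ‖w (φ n) - v‖) atTop (𝓝 0) := by
    have h1 : Tendsto (fun n : ℕ => 1 / ((n : ℝ) + 1)) atTop (𝓝 0) :=
      tendsto_one_div_add_atTop_nhds_zero_nat
    exact squeeze_zero (fun _ => norm_nonneg _) (fun n => (hw2 (φ n)).le) (h1.comp hφ.tendsto_atTop)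
  have hwv : Tendsto (fun n => w (φ n)) atTop (𝓝 v) := by
    rw [tendsto_iff_norm_sub_tendsto_zero]
    exact hw0
  refine ⟨(L : X →ₗ[ℝ] ℝ), ?_, ?_⟩
  · have h1 : Tendsto (fun n => G (φ n) (w (φ n)) - G (φ n) v) atTop (𝓝 0) := by
      refine squeeze_zero_norm (fun n => ?_) hw0
      rw [← map_sub, Real.norm_eq_abs]
      exact hle _ _
    have h2 : Tendsto (fun n => (G (φ n) (w (φ n)) - G (φ n) v) + G (φ n) v) atTop (𝓝 (0 + L v)) :=
      h1.add (hev v)
    have h3 : (fun n => (G (φ n) (w (φ n)) - G (φ n) v) + G (φ n) v) = fun _ => (1 : ℝ) := by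
      funext n
      rw [sub_add_cancel, hG, hg1]
    rw [h3, zero_add] at h2
    exact (tendsto_nhds_unique h2 tendsto_const_nhds)
  · intro z
    have h1 : Tendsto (fun n => ‖z - (2 * G (φ n) z) • w (φ n)‖) atTop
        (𝓝 ‖z - (2 * L z) • v‖) := by
      apply Tendsto.norm
      apply Tendsto.sub tendsto_const_nhds
      exact ((hev z).const_mul 2).smul hwv
    have h2 : (fun n => ‖z - (2 * G (φ n) z) • w (φ n)‖) = fun _ => ‖z‖ := by
      funext n
      rw [hG, hg2]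
    rw [h2] at h1
    exact (tendsto_nhds_unique h1 tendsto_const_nhds)

end Pool.Agent.Q121.KS
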